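import Pool.Agent.P8H47.FP.Stm6
import Pool.Agent.P8H47.EC.Co

/-! # Project FQ (MP_600e55_nt): the coarsening lemma for `p = 2`; after `P8H47/EC/Co.lean` (helper63) -/

set_option autoImplicit false

namespace Pool.Agent.P8H7.FQ

open Pool.Agent.Y920.EP (pwG)
open Pool.Agent.P8H47.EC (Cp)
open Pool.Agent.P8H47.EC.CoP (mem_pw pig vpos)

variable {F : Type} [Field F] {p : ℕ}

lemma key (hp2 : p = 2) (O : ValuationSubring F) {y z : F}
    (hzp : O.valuation ((p : F) ^ 2) < O.valuation z) (h : y ^ p = 1 + z) :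
    O.valuation ((y - 1) ^ p) = O.valuation z := by
  subst hp2
  have e : z = (y - 1) ^ 2 + ((2 : ℕ) : F) * (y - 1) := by
    push_cast
    linear_combination -h
  rcases le_or_gt (O.valuation (y - 1)) (O.valuation ((2 : ℕ) : F)) with h1 | h1
  · exfalso
    have h2 : O.valuation ((y - 1) ^ 2) ≤ O.valuation (((2 : ℕ) : F) ^ 2) := by
      rw [map_pow, map_pow]
      exact pow_le_pow_left₀ zero_le h1 2
    have h3 : O.valuation (((2 : ℕ) : F) * (y - 1)) ≤ O.valuation (((2 : ℕ) : F) ^ 2) := by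
      rw [map_mul, map_pow, pow_two]
      exact mul_le_mul' le_rfl h1
    have h4 := Valuation.map_add_le O.valuation h2 h3
    rw [← e] at h4
    exact absurd hzp (not_lt.2 h4)
  · have h0 : 0 < O.valuation (y - 1) := lt_of_le_of_lt zero_le h1
    have h2 : O.valuation (((2 : ℕ) : F) * (y - 1)) < O.valuation ((y - 1) ^ 2) := by
      rw [map_mul, map_pow, pow_two]
      exact mul_lt_mul_of_pos_right h1 h0
    conv_rhs => rw [e]
    exact (Valuation.map_add_eq_of_lt_left _ h2).symm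

/-- the classes of `a` and `b` modulo `p`-th powers are different -/
lemma diff (hp : p.Prime) (hp2 : p = 2) (O : ValuationSubring F) {K : Subgroup Fˣ}
    (hU : ∀ u : Fˣ, O.valuation (u : F) = 1 → u ∈ K) (hP : pwG F p ≤ K) {z : Fˣ} (hzK : z ∉ K)
    (hzp : O.valuation ((p : F) ^ 2) < O.valuation (z : F)) {a b : Fˣ}
    (hb : O.valuation (b : F) = 1) (hab : O.valuation ((a : F) - b) = O.valuation (z : F)) :
    b⁻¹ * a ∉ pwG F p := by
  intro hcon
  obtain ⟨c, hc⟩ := mem_pw.1 hcon
  have hb0 : (b : F) ≠ 0 := b.ne_zero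
  have hc' : (c : F) ^ p = 1 + ((a : F) - b) / b := by
    have := congrArg (fun x : Fˣ => (x : F)) hc
    simp only [Units.val_pow_eq_pow_val, Units.val_mul, Units.val_inv_eq_inv_val] at this
    rw [this]
    field_simp
    ring
  have hv : O.valuation (((a : F) - b) / b) = O.valuation (z : F) := by
    rw [map_div₀, hb, div_one, hab]
  have h3 := key hp2 O (z := ((a : F) - b) / b) (by rw [hv]; exact hzp) hc'
  rw [hv] at h3
  have hz0 : O.valuation (z : F) ≠ 0 := (Valuation.ne_zero_iff _).2 z.ne_zero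
  have hc1 : (c : F) - 1 ≠ 0 := by
    intro h4
    rw [h4, zero_pow hp.pos.ne', map_zero] at h3
    exact hz0 h3.symm
  apply hzK
  have h5 : z * (Units.mk0 ((c : F) - 1) hc1 ^ p)⁻¹ ∈ K := by
    apply hU
    rw [Units.val_mul, Units.val_inv_eq_inv_val, Units.val_pow_eq_pow_val, Units.val_mk0, map_mul,
      map_inv₀, h3]
    exact mul_inv_cancel₀ hz0
  have h6 : Units.mk0 ((c : F) - 1) hc1 ^ p ∈ K := hP (mem_pw.2 ⟨_, rfl⟩)
  have h7 := K.mul_mem h5 h6
  rwa [inv_mul_cancel_right] at h7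

theorem co (hp2 : p = 2) (hp0 : (p : F) ≠ 0) (T : Subgroup Fˣ) (hpT : pwG F p ≤ T)
    (hfin : (pwG F p).relIndex T ≠ 0) (O : ValuationSubring F)
    (hone : ∀ x : F, x ∈ O → x⁻¹ ∉ O → ∃ t ∈ T, (t : F) = 1 + x) (hne : O.unitGroup ⊔ T ≠ ⊤) :
    (∃ O' : ValuationSubring F, O ≤ O' ∧ Cp p T O') ∨ ∃ x : Fˣ, Subgroup.zpowers x ⊔ T = ⊤ := by
  have hp : p.Prime := by rw [hp2]; exact Nat.prime_two
  by_cases hO : (p : F)⁻¹ ∈ O
  · exact Or.inl ⟨O, le_rfl, ⟨hO, hone, hne⟩⟩
  have : Fact p.Prime := ⟨hp⟩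
  have hle : O.toSubring ≤ Pool.Agent.Y232.EP.inv p O := by
    intro x hx
    exact ⟨0, by rw [pow_zero, one_mul]; exact hx⟩
  by_cases htop : (ValuationSubring.ofLE O (Pool.Agent.Y232.EP.inv p O) hle).unitGroup ⊔ T = ⊤
  swap
  · refine Or.inl ⟨ValuationSubring.ofLE O (Pool.Agent.Y232.EP.inv p O) hle, fun x hx => hle hx,
      ⟨⟨1, ?_⟩, ?_, htop⟩⟩
    · rw [pow_one, mul_inv_cancel₀ hp0]
      exact O.one_mem
    · intro x hx hx'
      have h3 : x⁻¹ ∉ O := fun h4 => hx' (hle h4)
      exact hone x ((O.mem_or_inv_mem x).resolve_right h3) h3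
  right
  obtain ⟨v, hv⟩ : ∃ v, v = O.valuation := ⟨_, rfl⟩
  have hvO : ∀ x : F, x ∈ O ↔ v x ≤ 1 := fun x => by rw [hv, O.valuation_le_one_iff]
  have hvp : v (p : F) < 1 := by rw [hv]; exact Pool.Agent.Y232.EP.lt_one hp0 hO
  have hvpos : ∀ x : F, x ≠ 0 → 0 < v x := fun x hx => by rw [hv]; exact vpos O hx
  have hvu : ∀ x : Fˣ, 0 < v (x : F) := fun x => hvpos _ x.ne_zero
  have hv2' : v ((p : F) ^ 2) < v (p : F) := by
    rw [map_pow, pow_two]
    exact mul_lt_of_lt_one_right (hvpos _ hp0) hvp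
  have hv2 : v ((p : F) ^ 2) ≤ v (p : F) := hv2'.le
  -- one units
  have h1 : ∀ x : F, v x < 1 → ∃ t ∈ T, (t : F) = 1 + x := by
    intro x hx
    by_cases hx0 : x = 0
    · exact ⟨1, T.one_mem, by rw [hx0, add_zero, Units.val_one]⟩
    · exact hone x ((hvO x).2 hx.le) (Pool.Agent.Y232.EP.of_lt_one hx0 (by rw [← hv]; exact hx))
  obtain ⟨K, hK⟩ : ∃ K, K = O.unitGroup ⊔ T := ⟨_, rfl⟩
  have hU : ∀ u : Fˣ, v (u : F) = 1 → u ∈ K := by
    intro u hu
    rw [hK]
    refine (le_sup_left : O.unitGroup ≤ O.unitGroup ⊔ T) ?_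
    rw [ValuationSubring.mem_unitGroup_iff, ← hv]
    exact hu
  have hTK : T ≤ K := by rw [hK]; exact le_sup_right
  have hPK : pwG F p ≤ K := hpT.trans hTK
  have hKne : K ≠ ⊤ := by rw [hK]; exact hne
  have hD : ∀ z : Fˣ, z ∉ K → v (z : F) < 1 → v ((p : F) ^ 2) < v (z : F) → ∀ a b : Fˣ,
      v (b : F) = 1 → v ((a : F) - b) = v (z : F) → b⁻¹ * a ∉ pwG F p := by
    intro z hz h3 h4 a b h5 h6
    rw [hv] at h4 h5 h6
    exact diff hp hp2 O (fun u hu => hU u (by rw [hv]; exact hu)) hPK hz h4 h5 h6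
  -- the set `Z`
  obtain ⟨Z, hZ⟩ : ∃ Z : Set Fˣ, Z = {z | z ∉ K ∧ v (z : F) < 1 ∧ v ((p : F) ^ 2) < v (z : F)} :=
    ⟨_, rfl⟩
  have hZm : ∀ z : Fˣ, z ∈ Z ↔ z ∉ K ∧ v (z : F) < 1 ∧ v ((p : F) ^ 2) < v (z : F) := by
    intro z; rw [hZ]; rfl
  have hZfin : ((fun z : Fˣ => v (z : F)) '' Z).Finite := by
    by_contra hinf
    have : Infinite ((fun z : Fˣ => v (z : F)) '' Z) := Set.infinite_coe_iff.2 hinf
    choose g hg using fun γ : ((fun z : Fˣ => v (z : F)) '' Z) => γ.2
    choose t ht using fun γ : ((fun z : Fˣ => v (z : F)) '' Z) => h1 (g γ) ((hZm _).1 (hg γ).1).2.1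
    obtain ⟨i, j, hij, hpw⟩ := pig hfin t (fun γ => (ht γ).1)
    have hvt : ∀ γ, v (t γ : F) = 1 := by
      intro γ
      rw [(ht γ).2, hv]
      exact Valuation.map_one_add_of_lt _ (by rw [← hv]; exact ((hZm _).1 (hg γ).1).2.1)
    have hne' : v (g i : F) ≠ v (g j : F) := by
      intro h3
      apply hij
      apply Subtype.ext
      rw [← (hg i).2, ← (hg j).2]
      exact h3
    rcases lt_or_gt_of_ne hne' with h3 | h3
    · refine hD (g j) ((hZm _).1 (hg j).1).1 ((hZm _).1 (hg j).1).2.1 ((hZm _).1 (hg j).1).2.2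
        (t j) (t i) (hvt i) ?_ hpw
      rw [(ht i).2, (ht j).2, add_sub_add_left_eq_sub, hv]
      rw [hv] at h3
      rw [Valuation.map_sub_swap]
      exact Valuation.map_sub_eq_of_lt_right _ h3
    · refine hD (g i) ((hZm _).1 (hg i).1).1 ((hZm _).1 (hg i).1).2.1 ((hZm _).1 (hg i).1).2.2
        (t i) (t j) (hvt j) ?_ ?_
      · rw [(ht i).2, (ht j).2, add_sub_add_left_eq_sub, hv]
        rw [hv] at h3
        rw [Valuation.map_sub_swap]
        exact Valuation.map_sub_eq_of_lt_right _ h3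
      · have h4 := (pwG F p).inv_mem hpw
        rwa [mul_inv_rev, inv_inv] at h4
  -- units of the coarsening
  have hO' : ∀ u : Fˣ, u ∈ (ValuationSubring.ofLE O (Pool.Agent.Y232.EP.inv p O) hle).unitGroup →
      ∃ n : ℕ, v (p : F) ^ n * v (u : F) ≤ 1 ∧ v (p : F) ^ n ≤ v (u : F) := by
    intro u hu
    have hu' : u⁻¹ ∈ (ValuationSubring.ofLE O (Pool.Agent.Y232.EP.inv p O) hle).unitGroup :=
      Subgroup.inv_mem _ hu
    rw [ValuationSubring.mem_unitGroup_iff] at hu hu'
    have h3 : (u : F) ∈ Pool.Agent.Y232.EP.inv p O := (ValuationSubring.valuation_le_one_iff _ _).1 hu.le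
    have h4 : ((u⁻¹ : Fˣ) : F) ∈ Pool.Agent.Y232.EP.inv p O :=
      (ValuationSubring.valuation_le_one_iff _ _).1 hu'.le
    obtain ⟨n, hn⟩ := h3
    obtain ⟨m, hm⟩ := h4
    rw [hvO, map_mul, map_pow] at hn hm
    rw [Units.val_inv_eq_inv_val, map_inv₀] at hm
    have h5 : ∀ a b : ℕ, a ≤ b → v (p : F) ^ b ≤ v (p : F) ^ a := fun a b h =>
      pow_le_pow_right_of_le_one' hvp.le h
    refine ⟨n + m, ?_, ?_⟩
    · exact (mul_le_mul_left (h5 n (n + m) (Nat.le_add_right _ _)) _).trans hn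
    · have h6 : v (p : F) ^ m ≤ v (u : F) := by
        have h7 := mul_le_mul_left hm (v (u : F))
        rwa [mul_assoc, inv_mul_cancel₀ (hvu u).ne', mul_one, one_mul] at h7
      exact (h5 m (n + m) (Nat.le_add_left _ _)).trans h6
  -- `Z` is not empty
  have hZne : Z.Nonempty := by
    by_cases hpK : Units.mk0 (p : F) hp0 ∈ K
    · -- descending by `p`
      have main : ∀ n : ℕ, ∀ u : Fˣ, u ∉ K → v (u : F) < 1 → v (p : F) ^ n ≤ v (u : F) → Z.Nonempty := by
        intro n
        induction n with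
        | zero =>
          intro u _ h3 h4
          rw [pow_zero] at h4
          exact absurd h3 (not_lt.2 h4)
        | succ n ih =>
          intro u hu h3 h4
          by_cases h5 : v (p : F) < v (u : F)
          · exact ⟨u, (hZm u).2 ⟨hu, h3, lt_of_le_of_lt hv2 h5⟩⟩
          · rw [not_lt] at h5
            have h6 : u * (Units.mk0 (p : F) hp0)⁻¹ ∉ K := by
              intro h7
              apply hu
              have h8 := K.mul_mem h7 hpK
              rwa [inv_mul_cancel_right] at h8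
            have h9 : v ((u * (Units.mk0 (p : F) hp0)⁻¹ : Fˣ) : F) = v (u : F) / v (p : F) := by
              rw [Units.val_mul, Units.val_inv_eq_inv_val, Units.val_mk0, map_mul, map_inv₀,
                div_eq_mul_inv]
            refine ih _ h6 ?_ ?_
            · refine lt_of_le_of_ne ?_ ?_
              · rw [h9]
                exact (div_le_one₀ (hvpos _ hp0)).2 h5
              · intro h10
                exact h6 (hU _ h10)
            · rw [h9, le_div_iff₀ (hvpos _ hp0), ← pow_succ]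
              exact h4
      obtain ⟨y, hy⟩ : ∃ y : Fˣ, y ∉ K := by
        by_contra hcon
        push Not at hcon
        exact hKne (eq_top_iff.2 fun y _ => hcon y)
      have hy' : y ∈ (ValuationSubring.ofLE O (Pool.Agent.Y232.EP.inv p O) hle).unitGroup ⊔ T := by
        rw [htop]; trivial
      obtain ⟨u, hu, t, ht, hut⟩ := Subgroup.mem_sup.1 hy'
      have huK : u ∉ K := by
        intro h3
        apply hy
        rw [← hut]
        exact K.mul_mem h3 (hTK ht)
      obtain ⟨n, hn1, hn2⟩ := hO' u hu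
      rcases lt_trichotomy (v (u : F)) 1 with h3 | h3 | h3
      · exact main n u huK h3 hn2
      · exact absurd (hU u h3) huK
      · refine main n u⁻¹ (fun h4 => huK ((K.inv_mem_iff).1 h4)) ?_ ?_
        · rw [Units.val_inv_eq_inv_val, map_inv₀]
          exact inv_lt_one_of_one_lt₀ h3
        · rw [Units.val_inv_eq_inv_val, map_inv₀]
          have h4 := mul_le_mul_left hn1 (v (u : F))⁻¹
          rwa [mul_assoc, mul_inv_cancel₀ (hvu u).ne', mul_one, one_mul] at h4
    · exact ⟨Units.mk0 (p : F) hp0, (hZm _).2 ⟨hpK, by rw [Units.val_mk0]; exact hvp, by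
        rw [Units.val_mk0]; exact hv2'⟩⟩
  -- the element `x`
  obtain ⟨γ, hγ, hmax⟩ := Set.exists_max_image _ id hZfin (hZne.image _)
  obtain ⟨x, hxZ, rfl⟩ := hγ
  have hmax' : ∀ z ∈ Z, v (z : F) ≤ v (x : F) := fun z hz => hmax _ ⟨z, hz, rfl⟩
  obtain ⟨hxK, hx1, hxp⟩ := (hZm x).1 hxZ
  have hgen : ∀ c : F, v c < 1 → v c ≤ v (x : F) := by
    intro c hc
    by_contra h3
    rw [not_le] at h3
    have hc0 : c ≠ 0 := by
      rintro rfl
      rw [map_zero] at h3
      exact not_lt_zero h3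
    by_cases hcK : Units.mk0 c hc0 ∈ K
    · have h4 : x * (Units.mk0 c hc0)⁻¹ ∉ K := by
        intro h5
        apply hxK
        have h6 := K.mul_mem h5 hcK
        rwa [inv_mul_cancel_right] at h6
      have h9 : v ((x * (Units.mk0 c hc0)⁻¹ : Fˣ) : F) = v (x : F) / v c := by
        rw [Units.val_mul, Units.val_inv_eq_inv_val, Units.val_mk0, map_mul, map_inv₀,
          div_eq_mul_inv]
      have h10 : v (x : F) < v (x : F) / v c := by
        rw [lt_div_iff₀ (hvpos _ hc0)]
        exact mul_lt_of_lt_one_right (hvu x) hc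
      have h11 := hmax' _ ((hZm _).2 ⟨h4, by
        rw [h9]; exact (div_lt_one₀ (hvpos _ hc0)).2 h3, by rw [h9]; exact hxp.trans h10⟩)
      rw [h9] at h11
      exact absurd h10 (not_lt.2 h11)
    · have h4 := hmax' _ ((hZm _).2 ⟨hcK, hc, hxp.trans h3⟩)
      exact absurd h3 (not_lt.2 h4)
  obtain ⟨j, hj⟩ : ∃ j : ℕ, v (x : F) ^ j ≤ v (p : F) := by
    by_contra hcon
    push Not at hcon
    have h3 : ∀ j : ℕ, x ^ (p * j + 1) ∈ Z := by
      intro j
      refine (hZm _).2 ⟨?_, ?_, ?_⟩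
      · intro h4
        apply hxK
        have h5 : x ^ (p * j) ∈ K := hPK (mem_pw.2 ⟨x ^ j, by rw [← pow_mul, mul_comm]⟩)
        have h6 := K.mul_mem (K.inv_mem h5) h4
        rwa [pow_succ, inv_mul_cancel_left] at h6
      · rw [Units.val_pow_eq_pow_val, map_pow]
        exact pow_lt_one₀ zero_le hx1 (by omega)
      · rw [Units.val_pow_eq_pow_val, map_pow (f := v) (x : F)]
        exact lt_of_le_of_lt hv2 (hcon _)
    have h4 : Function.Injective (fun j : ℕ => v ((x ^ (p * j + 1) : Fˣ) : F)) := by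
      have h5 : StrictAnti (fun j : ℕ => v (x : F) ^ j) := pow_right_strictAnti₀ (hvu x) hx1
      intro a b hab
      simp only [Units.val_pow_eq_pow_val, map_pow] at hab
      have h6 := h5.injective hab
      have h7 : p * a = p * b := by omega
      exact Nat.eq_of_mul_eq_mul_left hp.pos h7
    have h5 : ∀ j : ℕ, v ((x ^ (p * j + 1) : Fˣ) : F) ∈ (fun z : Fˣ => v (z : F)) '' Z :=
      fun j => ⟨x ^ (p * j + 1), h3 j, rfl⟩
    exact Set.infinite_of_injective_forall_mem h4 h5 hZfin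
  have hpw : ∀ M : ℕ, ∀ u : Fˣ, v (x : F) ^ M ≤ v (u : F) → v (u : F) ≤ 1 →
      ∃ i : ℕ, v (u : F) = v (x : F) ^ i := by
    intro M
    induction M with
    | zero =>
      intro u h3 h4
      rw [pow_zero] at h3
      exact ⟨0, by rw [pow_zero]; exact le_antisymm h4 h3⟩
    | succ M ih =>
      intro u h3 h4
      rcases h4.eq_or_lt with h5 | h5
      · exact ⟨0, by rw [pow_zero]; exact h5⟩
      · have h6 := hgen _ h5
        have h9 : v ((u * x⁻¹ : Fˣ) : F) = v (u : F) / v (x : F) := by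
          rw [Units.val_mul, Units.val_inv_eq_inv_val, map_mul, map_inv₀, div_eq_mul_inv]
        obtain ⟨i, hi⟩ := ih (u * x⁻¹) (by
          rw [h9, le_div_iff₀ (hvu x), ← pow_succ]; exact h3) (by
          rw [h9]; exact (div_le_one₀ (hvu x)).2 h6)
        refine ⟨i + 1, ?_⟩
        rw [pow_succ, ← hi, h9, div_mul_cancel₀ _ (hvu x).ne']
  -- the residue field is finite
  have hres : ∀ a : O, IsLocalRing.residue O a = 0 ↔ v (a : F) < 1 := by
    intro a
    rw [IsLocalRing.residue_eq_zero_iff, hv, O.valuation_lt_one_iff]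
  have hk : Finite (IsLocalRing.ResidueField O) := by
    by_contra hinf
    rw [not_finite_iff_infinite] at hinf
    choose s hs using fun a : IsLocalRing.ResidueField O => IsLocalRing.residue_surjective (R := O) a
    have h3 : ∀ a, v ((s a : F) * x) < 1 := by
      intro a
      rw [map_mul]
      exact lt_of_le_of_lt (mul_le_of_le_one_left' ((hvO _).1 (s a).2)) hx1
    choose t ht using fun a : IsLocalRing.ResidueField O => h1 ((s a : F) * x) (h3 a)
    obtain ⟨a, b, hab, hpq⟩ := pig hfin t (fun γ => (ht γ).1)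
    refine hD x hxK hx1 hxp (t b) (t a) ?_ ?_ hpq
    · rw [(ht a).2, hv]
      exact Valuation.map_one_add_of_lt _ (by rw [← hv]; exact h3 a)
    · rw [(ht a).2, (ht b).2, add_sub_add_left_eq_sub, ← sub_mul, map_mul]
      have h4 : v ((s b : F) - s a) = 1 := by
        have h5 : v ((s b : F) - s a) ≤ 1 := (hvO _).1 (sub_mem (s b).2 (s a).2)
        refine le_antisymm h5 (not_lt.1 fun h6 => hab ?_)
        have h7 : IsLocalRing.residue O (s b - s a) = 0 := (hres _).2 (by push_cast; exact h6)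
        rw [map_sub, hs, hs, sub_eq_zero] at h7
        exact h7.symm
      rw [h4, one_mul]
  have hch : CharP (IsLocalRing.ResidueField O) p := by
    rw [CharP.charP_iff_prime_eq_zero hp]
    have h3 : IsLocalRing.residue O (p : O) = 0 := (hres _).2 (by push_cast; exact hvp)
    rwa [map_natCast] at h3
  have hUT : ∀ u : Fˣ, v (u : F) = 1 → u ∈ T := by
    intro u hu
    have huO : (u : F) ∈ O := (hvO _).2 hu.le
    obtain ⟨a, ha⟩ := (Finite.injective_iff_surjective.1
      (frobenius_inj (IsLocalRing.ResidueField O) p)) (IsLocalRing.residue O ⟨u, huO⟩)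
    obtain ⟨c, rfl⟩ := IsLocalRing.residue_surjective (R := O) a
    rw [frobenius_def, ← map_pow] at ha
    have h3 : v ((u : F) - (c : F) ^ p) < 1 := by
      have h4 : IsLocalRing.residue O (⟨u, huO⟩ - c ^ p) = 0 := by rw [map_sub, ha, sub_self]
      have h5 := (hres _).1 h4
      push_cast at h5
      exact h5
    have h4 : v ((c : F) ^ p) = 1 := by
      have h5 : (c : F) ^ p = u - (u - (c : F) ^ p) := by ring
      rw [h5, hv]
      rw [hv] at h3 hu
      rw [Valuation.map_sub_eq_of_lt_left _ (by rw [hu]; exact h3), hu]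
    have hc0 : (c : F) ≠ 0 := by
      intro h5
      rw [h5, zero_pow hp.pos.ne', map_zero] at h4
      exact zero_ne_one h4
    have hcp : (c : F) ^ p ≠ 0 := pow_ne_zero _ hc0
    obtain ⟨t, ht, ht1⟩ := h1 (((u : F) - (c : F) ^ p) / (c : F) ^ p) (by
      rw [map_div₀, h4, div_one]; exact h3)
    have h6 : u = t * Units.mk0 (c : F) hc0 ^ p := by
      apply Units.ext
      rw [Units.val_mul, ht1, Units.val_pow_eq_pow_val, Units.val_mk0]
      field_simp
      ring
    rw [h6]
    exact T.mul_mem ht (hpT (mem_pw.2 ⟨_, rfl⟩))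
  refine ⟨x, eq_top_iff.2 fun y _ => ?_⟩
  have hy' : y ∈ (ValuationSubring.ofLE O (Pool.Agent.Y232.EP.inv p O) hle).unitGroup ⊔ T := by
    rw [htop]; trivial
  obtain ⟨u, hu, t, ht, hut⟩ := Subgroup.mem_sup.1 hy'
  obtain ⟨n, hn1, hn2⟩ := hO' u hu
  have hjn : v (x : F) ^ (j * n) ≤ v (p : F) ^ n := by
    rw [pow_mul]
    exact pow_le_pow_left₀ zero_le hj n
  have hu2 : u ∈ Subgroup.zpowers x ⊔ T := by
    have hsub : ∀ w : Fˣ, v (w : F) ≤ 1 → v (p : F) ^ n ≤ v (w : F) → w ∈ Subgroup.zpowers x ⊔ T := by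
      intro w h3 h4
      obtain ⟨i, hi⟩ := hpw (j * n) w (hjn.trans h4) h3
      have h5 : (x ^ i)⁻¹ * w ∈ T := by
        apply hUT
        rw [Units.val_mul, Units.val_inv_eq_inv_val, Units.val_pow_eq_pow_val, map_mul, map_inv₀,
          map_pow, hi]
        exact inv_mul_cancel₀ (pow_ne_zero _ (hvu x).ne')
      have h6 : w = x ^ i * ((x ^ i)⁻¹ * w) := by rw [mul_inv_cancel_left]
      rw [h6]
      exact Subgroup.mul_mem_sup (Subgroup.pow_mem _ (Subgroup.mem_zpowers x) i) h5
    rcases le_total (v (u : F)) 1 with h3 | h3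
    · exact hsub u h3 hn2
    · have h4 := hsub u⁻¹ (by
        rw [Units.val_inv_eq_inv_val, map_inv₀]
        exact inv_le_one_of_one_le₀ h3) (by
        rw [Units.val_inv_eq_inv_val, map_inv₀]
        have h4 := mul_le_mul_left hn1 (v (u : F))⁻¹
        rwa [mul_assoc, mul_inv_cancel₀ (hvu u).ne', mul_one, one_mul] at h4)
      have h5 := Subgroup.inv_mem _ h4
      rwa [inv_inv] at h5
  rw [← hut]
  exact Subgroup.mul_mem _ hu2 ((le_sup_right : T ≤ Subgroup.zpowers x ⊔ T) ht)

/-- **COAR** -/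
theorem coar : Pool.Agent.P8H47.FP.S_COAR := by
  intro F _ h2 T hpT hfin O hone hne
  exact co (p := 2) rfl (by push_cast; exact h2) T hpT hfin O hone hne

/-- **NRM** -/
theorem nrm : Pool.Agent.P8H47.FP.S_NRM := by
  intro F _ B hB x y ⟨u, v, huv⟩
  have addr : ∀ a b c : Fˣ, B a (b * c) = B a b + B a c := fun a b c => by
    rw [hB.symm a, hB.left, hB.symm b, hB.symm c]
  have two : ∀ a : ZMod 2, a + a = 0 := fun a => CharTwo.add_self_eq_zero a
  have one_r : ∀ a : Fˣ, B a 1 = 0 := fun a => by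
    have := addr a 1 1
    rw [mul_one] at this
    exact left_eq_add.1 this
  have inv_r : ∀ a b : Fˣ, B a b⁻¹ = B a b := fun a b => by
    have h1 := addr a b b⁻¹
    rw [mul_inv_cancel, one_r] at h1
    have h2 := two (B a b)
    have h3 : B a b + B a b⁻¹ = B a b + B a b := by rw [← h1, h2]
    exact add_left_cancel h3
  have inv_l : ∀ a b : Fˣ, B a⁻¹ b = B a b := fun a b => by
    rw [hB.symm, inv_r, hB.symm]
  have sq_r : ∀ a b : Fˣ, B a (b * b) = 0 := fun a b => by rw [addr, two]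
  -- `B x (-x) = 0`
  have neg : ∀ x : Fˣ, B x (-x) = 0 := by
    intro x
    by_cases h1 : (x : F) = 1
    · have h2 : x = 1 := Units.ext h1
      rw [h2, hB.symm]
      exact one_r _
    · have e0 : (1 : F) - x ≠ 0 := sub_ne_zero.2 fun h => h1 h.symm
      have e1 : (1 : F) - (x : F)⁻¹ ≠ 0 := by
        rw [sub_ne_zero]
        intro h
        apply h1
        rw [← inv_inv (x : F), ← h, inv_one]
      have s1 : B x (Units.mk0 _ e0) = 0 := hB.st _ _ (by rw [Units.val_mk0]; ring)
      have s2 : B x⁻¹ (Units.mk0 _ e1) = 0 := hB.st _ _ (by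
        rw [Units.val_mk0, Units.val_inv_eq_inv_val]; ring)
      have h3 : -x = Units.mk0 _ e0 * (Units.mk0 _ e1)⁻¹ := by
        apply Units.ext
        rw [Units.val_neg, Units.val_mul, Units.val_inv_eq_inv_val, Units.val_mk0, Units.val_mk0,
          eq_mul_inv_iff_mul_eq₀ e1]
        have := x.ne_zero
        field_simp
        ring
      rw [h3, addr, s1, inv_r, ← inv_l x (Units.mk0 _ e1), s2, add_zero]
  by_cases hv : v = 0
  · rw [hv, zero_pow two_ne_zero, mul_zero, sub_zero] at huv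
    have hu : u ≠ 0 := by
      rintro rfl
      rw [zero_pow two_ne_zero] at huv
      exact y.ne_zero huv
    have h1 : y = Units.mk0 u hu * Units.mk0 u hu := by
      apply Units.ext
      rw [Units.val_mul, Units.val_mk0, huv, pow_two]
    rw [h1, sq_r]
  · by_cases hu : u = 0
    · rw [hu, zero_pow two_ne_zero, zero_sub] at huv
      have h1 : y = -x * (Units.mk0 v hv * Units.mk0 v hv) := by
        apply Units.ext
        rw [Units.val_mul, Units.val_mul, Units.val_neg, Units.val_mk0, huv]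
        ring
      rw [h1, addr, neg, sq_r, add_zero]
    · have h1 : B (x * (Units.mk0 (v / u) (div_ne_zero hv hu) * Units.mk0 (v / u) (div_ne_zero hv hu)))
          (y * (Units.mk0 u⁻¹ (inv_ne_zero hu) * Units.mk0 u⁻¹ (inv_ne_zero hu))) = 0 := by
        apply hB.st
        simp only [Units.val_mul, Units.val_mk0]
        rw [huv]
        field_simp
        ring
      rw [hB.left, addr, sq_r, add_zero, hB.symm _ (y * _), sq_r, add_zero] at h1
      exact h1

end Pool.Agent.P8H7.FQ
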